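import Mathlib

/-!
# MP_4ac3ef_co: tournaments representing infinite groups without involutions

Every infinite group `G` without elements of order two is the automorphism group of a tournament
with at most `15` orbits on the vertices.

Step 1: in every infinite group there are four sets `A`, `B`, `S`, `T` such that the only
permutation of `G` which fixes `1` and preserves the four relations `x⁻¹ y ∈ A, B, S, T` is the
identity.  The elements of `A` and `B` are chosen by transfinite recursion.
Step 2: five copies of `G` and ten constants.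
-/

namespace Pool.Agent.Results.MP_4ac3ef_co.BoundedOrbits

open Cardinal Set

universe u

/-! ### Step 1: four sets with no symmetries -/

theorem exists_avoid {I α : Type u} [LinearOrder I] [WellFoundedLT I]
    (Bad : (i : I) → ((j : I) → j < i → α) → Set α) (h : ∀ i f, ∃ x, x ∉ Bad i f) :
    ∃ f : I → α, ∀ i, f i ∉ Bad i (fun j _ => f j) := by
  classical
  let F : (i : I) → ((j : I) → j < i → α) → α := fun i f => (h i f).choose
  have hF : ∀ i f, F i f ∉ Bad i f := fun i f => (h i f).choose_spec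
  let g : I → α := (wellFounded_lt (α := I)).fix F
  refine ⟨g, fun i => ?_⟩
  have h1 : g i = F i (fun j _ => g j) := WellFounded.fix_eq _ _ _
  rw [h1]
  exact hF _ _

/-- a sequence indexed by `I` such that `c m ≠ c u * (c v)⁻¹ * c w` for `u, v, w < m` -/
theorem exists_free_seq (G I : Type u) [Group G] [Infinite G] [LinearOrder I] [WellFoundedLT I]
    (hI : ∀ i : I, #(Iio i) < #G) :
    ∃ c : I → G, ∀ m u v w, u < m → v < m → w < m → c m ≠ c u * (c v)⁻¹ * c w := by
  let Bad : (i : I) → ((j : I) → j < i → G) → Set G := fun i f =>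
    range (fun t : (Iio i) × (Iio i) × (Iio i) =>
      f t.1.1 t.1.2 * (f t.2.1.1 t.2.1.2)⁻¹ * f t.2.2.1 t.2.2.2)
  have hB : ∀ i f, ∃ x, x ∉ Bad i f := by
    intro i f
    by_contra hcon
    push Not at hcon
    have h0 : ℵ₀ ≤ #G := aleph0_le_mk G
    have h1 : #((Iio i) × (Iio i) × (Iio i)) < #G := by
      simp only [mk_prod, lift_id]
      exact mul_lt_of_lt h0 (hI i) (mul_lt_of_lt h0 (hI i) (hI i))
    have h2 : #(Bad i f) ≤ #((Iio i) × (Iio i) × (Iio i)) := mk_range_le
    have h3 : Bad i f = Set.univ := by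
      ext x
      simp [hcon x]
    rw [h3, mk_univ] at h2
    exact absurd (lt_of_le_of_lt h2 h1) (lt_irrefl _)
  obtain ⟨c, hc⟩ := exists_avoid Bad hB
  refine ⟨c, fun m u v w hu hv hw h => hc m ?_⟩
  exact ⟨(⟨u, hu⟩, ⟨v, hv⟩, ⟨w, hw⟩), h.symm⟩

theorem max_cases {I : Type*} [LinearOrder I] (x y x' y' : I) (h1 : x ≠ y) (h2 : x ≠ y')
    (h3 : x' ≠ y) (h4 : x' ≠ y') (h5 : x ≠ x') (h6 : y ≠ y') :
    (y < x ∧ y' < x ∧ x' < x) ∨ (x < y ∧ x' < y ∧ y' < y) ∨
        (y' < x' ∧ y < x' ∧ x < x') ∨ (x' < y' ∧ x < y' ∧ y < y') := by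
  rcases lt_or_gt_of_ne h1 with a | a
  · rcases lt_or_gt_of_ne h3 with b | b
    · rcases lt_or_gt_of_ne h6 with c | c
      · exact Or.inr (Or.inr (Or.inr ⟨b.trans c, a.trans c, c⟩))
      · exact Or.inr (Or.inl ⟨a, b, c⟩)
    · rcases lt_or_gt_of_ne h4 with c | c
      · exact Or.inr (Or.inr (Or.inr ⟨c, (a.trans b).trans c, b.trans c⟩))
      · exact Or.inr (Or.inr (Or.inl ⟨c, b, a.trans b⟩))
  · rcases lt_or_gt_of_ne h5 with b | b
    · rcases lt_or_gt_of_ne h4 with c | c
      · exact Or.inr (Or.inr (Or.inr ⟨c, b.trans c, (a.trans b).trans c⟩))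
      · exact Or.inr (Or.inr (Or.inl ⟨c, a.trans b, b⟩))
    · rcases lt_or_gt_of_ne h2 with c | c
      · exact Or.inr (Or.inr (Or.inr ⟨b.trans c, c, lt_trans a c⟩))
      · exact Or.inl ⟨a, c, b⟩

theorem exists_two_seq (G I : Type u) [Group G] [Infinite G] [LinearOrder I] [WellFoundedLT I]
    [Infinite I] (hI : ∀ i : I, #(Iio i) < #G) :
    ∃ a b : I → G, ∀ i j k l, (a i)⁻¹ * b j = (a k)⁻¹ * b l → i = k ∧ j = l := by
  obtain ⟨c, hc⟩ := exists_free_seq G I hI
  have hinj : Function.Injective c := by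
    intro x y hxy
    by_contra hne
    rcases lt_or_gt_of_ne hne with h | h
    · exact hc y x x x h h h (by rw [← hxy]; group)
    · exact hc x y y y h h h (by rw [hxy]; group)
  have hsum : Nonempty (I ⊕ I ≃ I) := by
    rw [← Cardinal.eq]
    simp only [mk_sum, lift_id]
    exact add_eq_self (aleph0_le_mk I)
  obtain ⟨e⟩ := hsum
  have key : ∀ x y x' y' : I, x ≠ y → x ≠ y' → x' ≠ y → x' ≠ y' → x ≠ x' → y ≠ y' →
      (c x)⁻¹ * c y ≠ (c x')⁻¹ * c y' := by
    intro x y x' y' h1 h2 h3 h4 h5 h6 heq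
    have ex : c x = c y * (c y')⁻¹ * c x' := by
      have : c y = c x * ((c x')⁻¹ * c y') := by rw [← heq]; group
      rw [this]; group
    have ey : c y = c x * (c x')⁻¹ * c y' := by
      rw [mul_assoc, ← heq]; group
    have ex' : c x' = c y' * (c y)⁻¹ * c x := by
      have : c y' = c x' * ((c x)⁻¹ * c y) := by rw [heq]; group
      rw [this]; group
    have ey' : c y' = c x' * (c x)⁻¹ * c y := by
      rw [mul_assoc, heq]; group
    have hm : (y < x ∧ y' < x ∧ x' < x) ∨ (x < y ∧ x' < y ∧ y' < y) ∨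
        (y' < x' ∧ y < x' ∧ x < x') ∨ (x' < y' ∧ x < y' ∧ y < y') := by
      exact max_cases x y x' y' h1 h2 h3 h4 h5 h6
    rcases hm with ⟨p, q, r⟩ | ⟨p, q, r⟩ | ⟨p, q, r⟩ | ⟨p, q, r⟩
    · exact hc x y y' x' p q r ex
    · exact hc y x x' y' p q r ey
    · exact hc x' y' y x p q r ex'
    · exact hc y' x' x y p q r ey'
  refine ⟨fun i => c (e (Sum.inl i)), fun i => c (e (Sum.inr i)), fun i j k l h => ?_⟩
  have hne : ∀ i j, e (Sum.inl i) ≠ e (Sum.inr j) := fun i j hij => by
    have := e.injective hij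
    cases this
  by_cases h1 : i = k
  · subst h1
    have h2 := hinj (mul_left_cancel h)
    exact ⟨rfl, Sum.inr_injective (e.injective h2)⟩
  · by_cases h2 : j = l
    · subst h2
      have h3 := hinj (inv_injective (mul_right_cancel h))
      exact ⟨Sum.inl_injective (e.injective h3), rfl⟩
    · exfalso
      refine key _ _ _ _ (hne i j) (hne i l) (hne k j) (hne k l) ?_ ?_ h
      · exact fun h3 => h1 (Sum.inl_injective (e.injective h3))
      · exact fun h3 => h2 (Sum.inr_injective (e.injective h3))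

/-- a permutation preserves the relation `x⁻¹ y ∈ S` -/
def Preserves {G : Type u} [Group G] (π : G → G) (S : Set G) : Prop :=
  ∀ x y, x⁻¹ * y ∈ S ↔ (π x)⁻¹ * π y ∈ S

theorem exists_rigid (G : Type u) [Group G] [Infinite G] :
    ∃ A B S T : Set G, ∀ π : G → G, Function.Bijective π → π 1 = 1 → Preserves π A →
      Preserves π B → Preserves π S → Preserves π T → ∀ x, π x = x := by
  classical
  have h0 : ℵ₀ ≤ #G := aleph0_le_mk G
  let I := (#G).ord.ToType
  have hIG : #I = #G := mk_ord_toType _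
  have hI : ∀ i : I, #(Iio i) < #G := fun i => by
    have := mk_Iio_lt i (by simp [I])
    rwa [hIG] at this
  have : Infinite I := by
    rw [Cardinal.infinite_iff, hIG]; exact h0
  obtain ⟨a, b, hab⟩ := exists_two_seq G I hI
  have ha : Function.Injective a := fun x y h => (hab x x y x (by rw [h])).1
  have hb : Function.Injective b := fun x y h => (hab x x x y (by rw [h])).2
  -- enumeration of pairs
  have hq : ∃ q : I → G × G, Function.Surjective q := by
    have : #I = #(G × G) := by
      simp only [mk_prod, lift_id, hIG, mul_eq_self h0]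
    obtain ⟨e⟩ := Cardinal.eq.1 this
    exact ⟨e, e.surjective⟩
  obtain ⟨q, hq⟩ := hq
  -- choice of t
  have ht : ∃ t : I → I, ∀ i j, j < i →
      (a (t i))⁻¹ * (q i).1 ≠ (a (t j))⁻¹ * (q j).2 ∧
      (a (t i))⁻¹ * (q i).2 ≠ (a (t j))⁻¹ * (q j).1 := by
    let Bad : (i : I) → ((j : I) → j < i → I) → Set I := fun i f =>
      a ⁻¹' range (fun j : Iio i => (q i).1 * ((a (f j.1 j.2))⁻¹ * (q j.1).2)⁻¹) ∪
      a ⁻¹' range (fun j : Iio i => (q i).2 * ((a (f j.1 j.2))⁻¹ * (q j.1).1)⁻¹)
    have hB : ∀ i f, ∃ x, x ∉ Bad i f := by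
      intro i f
      by_contra hcon
      push Not at hcon
      have hU : Bad i f = Set.univ := by
        ext x
        simp [hcon x]
      have h3 : #(Bad i f) < #I := by
        refine lt_of_le_of_lt (mk_union_le _ _) ?_
        rw [hIG]
        refine add_lt_of_lt h0 (lt_of_le_of_lt ?_ (hI i)) (lt_of_le_of_lt ?_ (hI i))
        · exact (mk_preimage_of_injective _ _ ha).trans mk_range_le
        · exact (mk_preimage_of_injective _ _ ha).trans mk_range_le
      rw [hU, mk_univ] at h3
      exact lt_irrefl _ h3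
    obtain ⟨t, ht⟩ := exists_avoid Bad hB
    refine ⟨t, fun i j hj => ⟨fun h => ht i (Or.inl ⟨⟨j, hj⟩, ?_⟩), fun h => ht i (Or.inr ⟨⟨j, hj⟩, ?_⟩)⟩⟩
    · show (q i).1 * ((a (t j))⁻¹ * (q j).2)⁻¹ = a (t i)
      rw [← h]; group
    · show (q i).2 * ((a (t j))⁻¹ * (q j).1)⁻¹ = a (t i)
      rw [← h]; group
  obtain ⟨t, ht⟩ := ht
  refine ⟨range a, range b, {g | ∃ i j, i ≤ j ∧ g = (a i)⁻¹ * b j},
    {g | ∃ i, g = (a (t i))⁻¹ * (q i).1}, ?_⟩
  intro π hπ h1 hA hB hS hT
  have hS' : ∀ i j, (a i)⁻¹ * b j ∈ {g | ∃ i j, i ≤ j ∧ g = (a i)⁻¹ * b j} ↔ i ≤ j := by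
    intro i j
    constructor
    · rintro ⟨k, l, hkl, h⟩
      obtain ⟨rfl, rfl⟩ := hab _ _ _ _ h
      exact hkl
    · intro h
      exact ⟨i, j, h, rfl⟩
  -- π permutes A
  have hA1 : ∀ g, g ∈ range a ↔ π g ∈ range a := by
    intro g
    have := hA 1 g
    rwa [h1, inv_one, one_mul, one_mul] at this
  have hB1 : ∀ g, g ∈ range b ↔ π g ∈ range b := by
    intro g
    have := hB 1 g
    rwa [h1, inv_one, one_mul, one_mul] at this
  have hσ : ∀ i, ∃ j, π (a i) = a j := fun i => by
    obtain ⟨j, hj⟩ := (hA1 (a i)).1 ⟨i, rfl⟩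
    exact ⟨j, hj.symm⟩
  have hτ : ∀ i, ∃ j, π (b i) = b j := fun i => by
    obtain ⟨j, hj⟩ := (hB1 (b i)).1 ⟨i, rfl⟩
    exact ⟨j, hj.symm⟩
  choose σ hσ using hσ
  choose τ hτ using hτ
  have hτs : Function.Surjective τ := by
    intro j
    obtain ⟨g, hg⟩ := hπ.2 (b j)
    have : g ∈ range b := (hB1 g).2 (by rw [hg]; exact ⟨j, rfl⟩)
    obtain ⟨i, rfl⟩ := this
    exact ⟨i, hb (by rw [← hτ, hg])⟩
  have hσs : Function.Surjective σ := by
    intro j
    obtain ⟨g, hg⟩ := hπ.2 (a j)
    have : g ∈ range a := (hA1 g).2 (by rw [hg]; exact ⟨j, rfl⟩)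
    obtain ⟨i, rfl⟩ := this
    exact ⟨i, ha (by rw [← hσ, hg])⟩
  have hστ : ∀ i j, i ≤ j ↔ σ i ≤ τ j := by
    intro i j
    have := hS (a i) (b j)
    rw [hS', hσ, hτ, hS'] at this
    exact this
  have hmono : ∀ i j, i ≤ j ↔ σ i ≤ σ j := by
    intro i j
    constructor
    · intro h
      obtain ⟨k, hk⟩ := hτs (σ j)
      have h2 : j ≤ k := (hστ j k).2 (by rw [hk])
      have h3 : i ≤ k := h.trans h2
      have h4 := (hστ i k).1 h3
      rwa [hk] at h4
    · intro h
      have h2 : σ j ≤ τ j := (hστ j j).1 le_rfl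
      exact (hστ i j).2 (h.trans h2)
  have hσi : Function.Injective σ := by
    intro i j hij
    exact le_antisymm ((hmono i j).2 (by rw [hij])) ((hmono j i).2 (by rw [hij]))
  let e : I ≃o I := ⟨Equiv.ofBijective σ ⟨hσi, hσs⟩, fun {i j} => (hmono i j).symm⟩
  have he : e = OrderIso.refl I := Subsingleton.elim _ _
  have hσid : ∀ i, σ i = i := fun i => by
    have : e i = OrderIso.refl I i := by rw [he]
    exact this
  have hfix : ∀ i, π (a i) = a i := fun i => by rw [hσ, hσid]
  intro g
  by_contra hne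
  obtain ⟨i, hi⟩ := hq (g, π g)
  have hi1 : (q i).1 = g := by rw [hi]
  have hi2 : (q i).2 = π g := by rw [hi]
  have h5 := (hT (a (t i)) g).1 ⟨i, by rw [hi1]⟩
  rw [hfix] at h5
  obtain ⟨j, hj⟩ := h5
  rw [← hi2] at hj
  rcases lt_trichotomy i j with h | h | h
  · exact (ht j i h).1 hj.symm
  · subst h
    have := mul_left_cancel hj
    rw [hi1, hi2] at this
    exact hne this
  · exact (ht i j h).2 hj

/-! ### Step 2: the tournament -/

/-- A tournament on `V` with arcs `r`. -/
def IsTournament {V : Type u} (r : V → V → Prop) : Prop :=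
  (∀ x, ¬ r x x) ∧ ∀ x y, x ≠ y → Xor (r x y) (r y x)

/-- The automorphism group of the digraph on `V` with arcs `r`. -/
def Aut {V : Type u} (r : V → V → Prop) : Subgroup (Equiv.Perm V) where
  carrier := {e | ∀ x y, r (e x) (e y) ↔ r x y}
  mul_mem' := by
    intro e f he hf x y
    exact (he _ _).trans (hf _ _)
  one_mem' := fun x y => Iff.rfl
  inv_mem' := by
    intro e he x y
    have := he (e⁻¹ x) (e⁻¹ y)
    simpa using this.symm

/-- vertices: five copies of `G` and ten constants -/
inductive Vtx (G : Type u) : Type u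
  | lev (i : Fin 5) (x : G)
  | p (i : Fin 5)
  | r (i : Fin 5)

open Vtx

variable {G : Type u} [Group G]

/-- arcs -/
def arc (P : Set G) (R : Fin 5 → Fin 5 → Set G) : Vtx G → Vtx G → Prop
  | lev i x, lev j y => if i < j then x⁻¹ * y ∈ R i j else if j < i then y⁻¹ * x ∉ R j i
      else x⁻¹ * y ∈ P
  | lev i _, p j => i ≠ j
  | p j, lev i _ => i = j
  | lev _ _, r _ => False
  | r _, lev _ _ => True
  | p i, p j => i < j
  | r i, r j => i < j
  | p i, r j => i = j
  | r j, p i => i ≠ j

theorem exists_half (h2 : ∀ g : G, orderOf g ≠ 2) :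
    ∃ P : Set G, 1 ∉ P ∧ ∀ g, g ≠ 1 → Xor (g ∈ P) (g⁻¹ ∈ P) := by
  classical
  let _ : LinearOrder G := linearOrderOfSTO (WellOrderingRel (α := G))
  refine ⟨{g | g < g⁻¹}, by simp, fun g hg => ?_⟩
  have hne : g ≠ g⁻¹ := by
    intro h
    apply h2 g
    have : g ^ 2 = 1 := by
      rw [pow_two]
      nth_rewrite 2 [h]
      exact mul_inv_cancel g
    exact orderOf_eq_prime this hg
  rcases lt_or_gt_of_ne hne with h | h
  · left
    refine ⟨h, ?_⟩
    simp only [mem_ofPred_eq, inv_inv]
    exact not_lt.2 h.le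
  · right
    refine ⟨?_, ?_⟩
    · simpa using h
    · exact not_lt.2 h.le

theorem arc_isTournament {P : Set G} (hP1 : 1 ∉ P) (hP : ∀ g, g ≠ 1 → Xor (g ∈ P) (g⁻¹ ∈ P))
    (R : Fin 5 → Fin 5 → Set G) : IsTournament (arc P R) := by
  constructor
  · rintro (⟨i, x⟩ | i | i)
    · simp [arc, hP1]
    · simp [arc]
    · simp [arc]
  · rintro (⟨i, x⟩ | i | i) (⟨j, y⟩ | j | j) hne
    · rcases lt_trichotomy i j with h | h | h
      · simp only [arc, h, if_true, not_lt.2 h.le, if_false, Xor]
        tauto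
      · subst h
        have hxy : x⁻¹ * y ≠ 1 := by
          intro h
          apply hne
          rw [inv_mul_eq_one] at h
          rw [h]
        have := hP _ hxy
        simpa [arc] using this
      · simp only [arc, h, if_true, not_lt.2 h.le, if_false, Xor]
        tauto
    · simp only [arc, Xor]; tauto
    · simp [arc, Xor]
    · simp only [arc, Xor]; tauto
    · have hij : i ≠ j := fun h => hne (by rw [h])
      rcases lt_or_gt_of_ne hij with h | h
      · simp [arc, Xor, h, h.le]
      · simp [arc, Xor, h, h.le]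
    · simp only [arc, Xor]; tauto
    · simp [arc, Xor]
    · simp only [arc, Xor]; tauto
    · have hij : i ≠ j := fun h => hne (by rw [h])
      rcases lt_or_gt_of_ne hij with h | h
      · simp [arc, Xor, h, h.le]
      · simp [arc, Xor, h, h.le]

theorem encard_in {V : Type u} {r : V → V → Prop} (e : Equiv.Perm V) (he : e ∈ Aut r) (v : V) :
    {u | r u (e v)}.encard = {u | r u v}.encard := by
  have : {u | r u (e v)} = e '' {u | r u v} := by
    ext u
    constructor
    · intro hu
      refine ⟨e.symm u, ?_, by simp⟩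
      have := he (e.symm u) v
      rw [Equiv.apply_symm_apply] at this
      exact this.1 hu
    · rintro ⟨w, hw, rfl⟩
      exact (he w v).2 hw
  rw [this, e.injective.encard_image]

theorem r_injective : Function.Injective (r : Fin 5 → Vtx G) := fun i j h => by
  cases h; rfl

theorem in_r (P : Set G) (R : Fin 5 → Fin 5 → Set G) (j : Fin 5) :
    {u | arc P R u (r j)}.encard = (j : ℕ) + 1 := by
  have h1 : {u | arc P R u (r j)} = insert (p j) (r '' {i | i < j}) := by
    ext u
    rcases u with ⟨i, x⟩ | i | i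
    · simp [arc]
    · simp [arc]
    · simp [arc]
  rw [h1, Set.encard_insert_of_notMem (by simp), r_injective.encard_image]
  congr 1
  have : {i : Fin 5 | i < j} = ((Finset.Iio j : Finset (Fin 5)) : Set (Fin 5)) := by
    ext; simp
  rw [this, Set.encard_coe_eq_coe_finsetCard]
  simp

theorem in_lev (P : Set G) (R : Fin 5 → Fin 5 → Set G) (i : Fin 5) (x : G) :
    6 ≤ {u | arc P R u (lev i x)}.encard := by
  have h1 : insert (p i) (r '' (Set.univ : Set (Fin 5))) ⊆ {u | arc P R u (lev i x)} := by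
    rintro u (rfl | ⟨j, -, rfl⟩) <;> simp [arc]
  refine le_trans ?_ (Set.encard_mono h1)
  rw [Set.encard_insert_of_notMem (by simp), r_injective.encard_image, Set.encard_univ]
  simp
  norm_num

theorem in_p [Infinite G] (P : Set G) (R : Fin 5 → Fin 5 → Set G) (i : Fin 5) :
    {u | arc P R u (p i)}.encard = ⊤ := by
  obtain ⟨j, hj⟩ : ∃ j : Fin 5, j ≠ i := exists_ne i
  have h1 : range (fun y : G => lev j y) ⊆ {u | arc P R u (p i)} := by
    rintro u ⟨y, rfl⟩
    simpa [arc] using hj
  have h2 : (range (fun y : G => lev j y)).Infinite :=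
    Set.infinite_range_of_injective (fun a b h => by cases h; rfl)
  exact (h2.mono h1).encard_eq

theorem fix_r [Infinite G] {P : Set G} {R : Fin 5 → Fin 5 → Set G} {e : Equiv.Perm (Vtx G)}
    (he : e ∈ Aut (arc P R)) (j : Fin 5) : e (r j) = r j := by
  have h1 := encard_in e he (r j)
  rw [in_r] at h1
  rcases h : e (r j) with ⟨i, x⟩ | i | i
  · rw [h] at h1
    have h2 := in_lev P R i x
    rw [h1] at h2
    have h3 : ((6 : ℕ) : ℕ∞) ≤ ((j + 1 : ℕ) : ℕ∞) := by exact_mod_cast h2
    rw [Nat.cast_le] at h3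
    omega
  · rw [h, in_p] at h1
    have h3 : (⊤ : ℕ∞) = ((j + 1 : ℕ) : ℕ∞) := by exact_mod_cast h1
    exact absurd h3.symm (ENat.natCast_ne_top _)
  · rw [h, in_r] at h1
    have h3 : ((i + 1 : ℕ) : ℕ∞) = ((j + 1 : ℕ) : ℕ∞) := by exact_mod_cast h1
    rw [Nat.cast_inj] at h3
    congr 1
    apply Fin.ext
    omega

theorem fix_p [Infinite G] {P : Set G} {R : Fin 5 → Fin 5 → Set G} {e : Equiv.Perm (Vtx G)}
    (he : e ∈ Aut (arc P R)) (j : Fin 5) : e (p j) = p j := by
  have h1 : arc P R (e (p j)) (r j) := by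
    rw [← fix_r he j, he]
    simp [arc]
  rcases h : e (p j) with ⟨i, x⟩ | i | i
  · rw [h] at h1
    exact absurd h1 (by simp [arc])
  · rw [h] at h1
    have : i = j := h1
    rw [this]
  · rw [← fix_r he i] at h
    cases e.injective h

theorem map_lev [Infinite G] {P : Set G} {R : Fin 5 → Fin 5 → Set G} {e : Equiv.Perm (Vtx G)}
    (he : e ∈ Aut (arc P R)) (i : Fin 5) (x : G) : ∃ y, e (lev i x) = lev i y := by
  rcases h : e (lev i x) with ⟨j, y⟩ | j | j
  · have h1 : arc P R (e (p i)) (e (lev i x)) := by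
      rw [he]; simp [arc]
    rw [fix_p he, h] at h1
    have : j = i := h1
    exact ⟨y, by rw [this]⟩
  · rw [← fix_p he j] at h
    cases e.injective h
  · rw [← fix_r he j] at h
    cases e.injective h

/-- the relations between the copies of `G` -/
def rels (A B S T : Set G) : Fin 5 → Fin 5 → Set G := fun i j =>
  if i = 0 then {1} else if i = 1 ∧ j = 2 then A else if i = 1 ∧ j = 3 then B
    else if i = 2 ∧ j = 3 then S else if i = 1 ∧ j = 4 then T else ∅

theorem arc_lt {P : Set G} {R : Fin 5 → Fin 5 → Set G} {i j : Fin 5} (h : i < j) (x y : G) :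
    arc P R (lev i x) (lev j y) ↔ x⁻¹ * y ∈ R i j := by
  simp [arc, h]

/-- left translations -/
def trans (g : G) : Equiv.Perm (Vtx G) where
  toFun
    | lev i x => lev i (g * x)
    | p i => p i
    | r i => r i
  invFun
    | lev i x => lev i (g⁻¹ * x)
    | p i => p i
    | r i => r i
  left_inv := by rintro (⟨i, x⟩ | i | i) <;> simp
  right_inv := by rintro (⟨i, x⟩ | i | i) <;> simp

theorem trans_mem (P : Set G) (R : Fin 5 → Fin 5 → Set G) (g : G) :
    trans g ∈ Aut (arc P R) := by
  rintro (⟨i, x⟩ | i | i) (⟨j, y⟩ | j | j) <;> simp [trans, arc, mul_assoc]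

theorem eq_trans [Infinite G] {P : Set G} {A B S T : Set G}
    (hr : ∀ π : G → G, Function.Bijective π → π 1 = 1 → Preserves π A →
      Preserves π B → Preserves π S → Preserves π T → ∀ x, π x = x)
    {e : Equiv.Perm (Vtx G)} (he : e ∈ Aut (arc P (rels A B S T))) : ∃ g, e = trans g := by
  choose π hπ using fun i x => map_lev he i x
  have h0 : ∀ j, π j = π 0 := by
    intro j
    by_cases hj : j = 0
    · rw [hj]
    · have h0j : 0 < j := Fin.pos_of_ne_zero hj
      funext x
      have h1 : arc P (rels A B S T) (lev 0 x) (lev j x) := by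
        rw [arc_lt h0j]; simp [rels]
      rw [← he, hπ, hπ, arc_lt h0j] at h1
      have h2 : (π 0 x)⁻¹ * π j x = 1 := by simpa [rels] using h1
      rw [inv_mul_eq_one] at h2
      exact h2.symm
  have hpres : ∀ {i j : Fin 5}, i < j → Preserves (π 0) (rels A B S T i j) := by
    intro i j hij x y
    rw [← arc_lt (P := P) (R := rels A B S T) hij, ← he, hπ, hπ, arc_lt hij, h0 i, h0 j]
  have hbij : Function.Bijective (π 0) := by
    constructor
    · intro x y hxy
      have : e (lev 0 x) = e (lev 0 y) := by rw [hπ, hπ, hxy]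
      cases e.injective this
      rfl
    · intro y
      have he' : e⁻¹ ∈ Aut (arc P (rels A B S T)) := Subgroup.inv_mem _ he
      obtain ⟨x, hx⟩ := map_lev he' 0 y
      refine ⟨x, ?_⟩
      have h1 : e (lev 0 x) = lev 0 y := by
        rw [← hx]; simp
      rw [hπ] at h1
      cases h1
      rfl
  set t := π 0 1 with ht
  have hfix : ∀ x, t⁻¹ * π 0 x = x := by
    have hp : ∀ {U : Set G}, Preserves (π 0) U → Preserves (fun x => t⁻¹ * π 0 x) U := by
      intro U hU x y
      rw [hU x y]
      simp [mul_assoc]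
    apply hr (fun x => t⁻¹ * π 0 x)
    · exact (Group.mulLeft_bijective t⁻¹).comp hbij
    · simp [ht]
    · apply hp
      have := hpres (i := 1) (j := 2) (by decide)
      simpa [rels] using this
    · apply hp
      have := hpres (i := 1) (j := 3) (by decide)
      simpa [rels] using this
    · apply hp
      have := hpres (i := 2) (j := 3) (by decide)
      simpa [rels] using this
    · apply hp
      have := hpres (i := 1) (j := 4) (by decide)
      simpa [rels] using this
  refine ⟨t, ?_⟩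
  ext v
  rcases v with ⟨i, x⟩ | i | i
  · rw [hπ, h0 i]
    show lev i (π 0 x) = lev i (t * x)
    have := hfix x
    rw [inv_mul_eq_iff_eq_mul] at this
    rw [this]
  · exact fix_p he i
  · exact fix_r he i

/-- **Main theorem.** -/
theorem result (G : Type u) [Group G] [Infinite G] (h2 : ∀ g : G, orderOf g ≠ 2) :
    ∃ (V : Type u) (r : V → V → Prop), IsTournament r ∧ Nonempty (Aut r ≃* G) ∧
      #(MulAction.orbitRel.Quotient (Aut r) V) ≤ 15 := by
  obtain ⟨A, B, S, T, hr⟩ := exists_rigid G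
  obtain ⟨P, hP1, hP⟩ := exists_half h2
  refine ⟨Vtx G, arc P (rels A B S T), arc_isTournament hP1 hP _, ?_, ?_⟩
  · let f : G →* Aut (arc P (rels A B S T)) :=
      { toFun := fun g => ⟨trans g, trans_mem _ _ g⟩
        map_one' := by
          apply Subtype.ext
          ext v
          rcases v with ⟨i, x⟩ | i | i <;> simp [trans]
        map_mul' := by
          intro g h
          apply Subtype.ext
          ext v
          rcases v with ⟨i, x⟩ | i | i <;> simp [trans, mul_assoc] }
    have hf : Function.Bijective f := by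
      constructor
      · intro g h hgh
        have h1 : (f g : Equiv.Perm (Vtx G)) (lev 0 1) = (f h : Equiv.Perm (Vtx G)) (lev 0 1) := by
          rw [hgh]
        have h3 : (lev 0 (g * 1) : Vtx G) = lev 0 (h * 1) := h1
        simpa using h3
      · rintro ⟨e, he⟩
        obtain ⟨g, hg⟩ := eq_trans hr he
        exact ⟨g, Subtype.ext hg.symm⟩
    exact ⟨(MulEquiv.ofBijective f hf).symm⟩
  · let q : Fin 5 × Fin 3 → MulAction.orbitRel.Quotient (Aut (arc P (rels A B S T))) (Vtx G) :=
      fun s => Quotient.mk'' (if s.2 = 0 then lev s.1 1 else if s.2 = 1 then p s.1 else Vtx.r s.1)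
    have hq : Function.Surjective q := by
      intro c
      induction c using Quotient.inductionOn' with
      | _ v =>
        rcases v with ⟨i, x⟩ | i | i
        · refine ⟨(i, 0), Quotient.sound' ?_⟩
          show MulAction.orbitRel _ _ _ _
          rw [MulAction.orbitRel_apply]
          refine ⟨⟨trans x⁻¹, trans_mem _ _ _⟩, ?_⟩
          show (trans x⁻¹) (lev i x) = _
          simp [trans]
        · exact ⟨(i, 1), by simp [q]⟩
        · exact ⟨(i, 2), by simp [q]⟩
    have h1 := mk_le_of_surjective (α := ULift.{u} (Fin 5 × Fin 3)) (f := fun s => q s.down)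
      (fun c => by obtain ⟨s, hs⟩ := hq c; exact ⟨⟨s⟩, hs⟩)
    refine h1.trans ?_
    simp

end Pool.Agent.Results.MP_4ac3ef_co.BoundedOrbits
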